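import Mathlib

namespace Pool.Agent.Results.MP_a03d73_co.Odd

open Finset

/-- A circuit: an inclusion-minimal non-empty zero-sum set of nonzero vectors. -/
def Circ {n : ℕ} (C : Finset (Fin n → ZMod 2)) : Prop :=
  0 ∉ C ∧ C.Nonempty ∧ ∑ x ∈ C, x = 0 ∧ ∀ D ⊆ C, D.Nonempty → ∑ x ∈ D, x = 0 → D = C

/-- `M` has a circuit odd-cover with `t` circuits. -/
def Cover {n : ℕ} (M : Finset (Fin n → ZMod 2)) (t : ℕ) : Prop :=
  ∃ C : Fin t → Finset (Fin n → ZMod 2), (∀ i, Circ (C i)) ∧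
    ∀ x, x ∈ M ↔ Odd (univ.filter fun i => x ∈ C i).card

/-- `M` is the union of `t` linearly independent sets. -/
def Arb {n : ℕ} (M : Finset (Fin n → ZMod 2)) (t : ℕ) : Prop :=
  ∃ I : Fin t → Finset (Fin n → ZMod 2),
    (∀ i, LinearIndependent (ZMod 2) fun x : I i => (x : Fin n → ZMod 2)) ∧ univ.biUnion I = M

theorem two {n : ℕ} (x : Fin n → ZMod 2) : x + x = 0 := by
  funext i
  exact CharTwo.add_self_eq_zero (x i)

theorem bound {n : ℕ} (D W : Finset (Fin n → ZMod 2))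
    (hD : ∀ E ⊆ D, E.Nonempty → ∑ x ∈ E, x ≠ 0) (hW : ∀ E ⊆ D, ∑ x ∈ E, x ∈ W) :
    2 ^ D.card ≤ W.card := by
  rw [← card_powerset]
  refine card_le_card_of_injOn (fun E => ∑ x ∈ E, x) (fun E hE => hW E (by simpa using hE)) ?_
  intro A hA B hB h
  simp only [coe_powerset, Set.mem_preimage, Set.mem_powerset_iff, coe_subset] at hA hB h
  by_contra hne
  have h1 := sum_inter_add_sum_sdiff A B fun x => x
  have h2 := sum_inter_add_sum_sdiff B A fun x => x
  rw [inter_comm] at h2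
  have h3 : ∑ x ∈ A \ B, x = ∑ x ∈ B \ A, x := add_left_cancel (h1.trans (h.trans h2.symm))
  refine hD (A \ B ∪ B \ A) (union_subset (sdiff_subset.trans hA) (sdiff_subset.trans hB)) ?_ ?_
  · by_contra he
    rw [not_nonempty_iff_eq_empty, union_eq_empty, sdiff_eq_empty_iff_subset,
      sdiff_eq_empty_iff_subset] at he
    exact hne (Subset.antisymm he.1 he.2)
  · rw [sum_union disjoint_sdiff_sdiff, h3, two]

theorem circ_bound {n k : ℕ} {C D : Finset (Fin n → ZMod 2)} (hC : Circ C) (hD : D ⊆ C)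
    (hne : D ≠ C) (W : Finset (Fin n → ZMod 2)) (hW : ∀ E ⊆ D, ∑ x ∈ E, x ∈ W)
    (hk : W.card = 2 ^ k) : D.card ≤ k := by
  have := bound D W (fun E hE h1 h2 => hne (Subset.antisymm hD
    ((hC.2.2.2 E (hE.trans hD) h1 h2) ▸ hE))) hW
  rw [hk] at this
  exact (Nat.pow_le_pow_iff_right (by norm_num)).1 this

def bt (m : ℕ) (i : Fin 8) : ZMod 2 := if m.testBit i then 1 else 0

def fs (l : List ℕ) : Finset (Fin 8 → ZMod 2) := (l.map bt).toFinset

def W1 : Finset (Fin 8 → ZMod 2) := univ.filter fun x => x 4 = 0 ∧ x 5 = 0 ∧ x 6 = 0 ∧ x 7 = 0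
def W2 : Finset (Fin 8 → ZMod 2) := univ.filter fun x => x 0 = 0 ∧ x 1 = 0 ∧ x 2 = 0 ∧ x 3 = 0

def MM : Finset (Fin 8 → ZMod 2) := fs [4, 5, 6, 7, 8, 9, 10, 11, 12, 13, 14, 15,
  64, 80, 96, 112, 128, 144, 160, 176, 192, 208, 224, 240]

theorem hsum (W : Finset (Fin 8 → ZMod 2)) (h0 : 0 ∈ W) (ha : ∀ x ∈ W, ∀ y ∈ W, x + y ∈ W)
    (E : Finset (Fin 8 → ZMod 2)) (hE : E ⊆ W) : ∑ x ∈ E, x ∈ W :=
  sum_induction _ (· ∈ W) (fun a b h1 h2 => ha a h1 b h2) h0 fun _ hx => hE hx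

theorem s1 (E : Finset (Fin 8 → ZMod 2)) (hE : E ⊆ W1) : ∑ x ∈ E, x ∈ W1 :=
  hsum W1 (by simp [W1]) (fun x hx y hy => by simp_all [W1]) E hE

theorem s2 (E : Finset (Fin 8 → ZMod 2)) (hE : E ⊆ W2) : ∑ x ∈ E, x ∈ W2 :=
  hsum W2 (by simp [W2]) (fun x hx y hy => by simp_all [W2]) E hE

theorem c1 : W1.card = 2 ^ 4 := by decide +kernel
theorem c2 : W2.card = 2 ^ 4 := by decide +kernel
theorem c3 : MM.card = 24 := by decide +kernel
theorem m1 : ∀ x ∈ MM, x ∈ W1 ∨ x ∈ W2 := by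
  simp only [W1, W2, mem_filter, mem_univ, true_and]; decide +kernel

theorem w12 (x : Fin 8 → ZMod 2) (h1 : x ∈ W1) (h2 : x ∈ W2) : x = 0 := by
  simp only [W1, W2, mem_filter, mem_univ, true_and] at h1 h2
  funext i
  fin_cases i <;> simp [h1, h2]

theorem key {C : Finset (Fin 8 → ZMod 2)} (hC : Circ C) :
    (C ∩ MM).card ≤ 8 ∧ ((C ∩ MM).card = 8 → C.card = 9) := by
  obtain ⟨p, hp⟩ := hC.2.1
  have he : C.erase p ≠ C := fun h => notMem_erase p C (h.symm ▸ hp)
  have hc := card_erase_add_one hp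
  have h9 := circ_bound (k := 8) hC (erase_subset p C) he univ (fun _ _ => mem_univ _) (by simp)
  by_cases h : C ∩ MM = C
  · have hM : C ⊆ MM := h ▸ inter_subset_right
    have h5 : C.card ≤ 5 := by
      have e := sum_inter_add_sum_sdiff C W1 fun x => x
      rw [hC.2.2.1] at e
      have hs : C \ W1 ⊆ W2 := fun x hx =>
        (m1 x (hM (mem_sdiff.1 hx).1)).resolve_left (mem_sdiff.1 hx).2
      have e1 : ∑ x ∈ C ∩ W1, x = ∑ x ∈ C \ W1, x :=
        add_right_cancel (e.trans (two _).symm)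
      have z := w12 _ (s1 _ inter_subset_right) (e1 ▸ s2 _ hs)
      rcases (C ∩ W1).eq_empty_or_nonempty with h0 | h0
      · have h1 : C ⊆ W2 := fun x hx => hs (mem_sdiff.2 ⟨hx, fun hw =>
          notMem_empty x (h0 ▸ mem_inter.2 ⟨hx, hw⟩)⟩)
        have := circ_bound hC (erase_subset p C) he W2
          (fun E hE => s2 E (hE.trans ((erase_subset p C).trans h1))) c2
        omega
      · have h1 : C ⊆ W1 := (hC.2.2.2 _ inter_subset_left h0 z) ▸ inter_subset_right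
        have := circ_bound hC (erase_subset p C) he W1
          (fun E hE => s1 E (hE.trans ((erase_subset p C).trans h1))) c1
        omega
    rw [h]; omega
  · have := card_lt_card (ssubset_of_subset_of_ne (inter_subset_left (s₁ := C) (s₂ := MM)) h)
    omega

theorem lower (t : ℕ) (h : Cover MM t) : 4 ≤ t := by
  obtain ⟨C, hC, hM⟩ := h
  by_contra ht
  have h1 : MM ⊆ univ.biUnion fun i => C i ∩ MM := fun x hx => by
    obtain ⟨i, hi⟩ := card_pos.1 ((hM x).1 hx).pos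
    exact mem_biUnion.2 ⟨i, mem_univ _, mem_inter.2 ⟨(mem_filter.1 hi).2, hx⟩⟩
  have h2 := (card_le_card h1).trans card_biUnion_le
  rw [c3] at h2
  have h3 : ∑ i, (C i).card = ∑ x, (univ.filter fun i => x ∈ C i).card := by
    simp only [card_filter]
    rw [sum_comm]
    simp
  have h4 : Even (∑ i, (C i).card) := by
    rw [h3, even_sum_iff_even_card_odd]
    have : (univ.filter fun x => Odd (univ.filter fun i => x ∈ C i).card) = MM := by
      ext x; simp [hM x]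
    rw [this, c3]; decide
  have h5 : ∑ i, (C i ∩ MM).card ≤ t * 8 := by
    have := sum_le_card_nsmul univ (fun i => (C i ∩ MM).card) 8 fun i _ => (key (hC i)).1
    simpa using this
  obtain rfl : t = 3 := by omega
  rw [Fin.sum_univ_three] at h2 h4
  have k0 := key (hC 0)
  have k1 := key (hC 1)
  have k2 := key (hC 2)
  rw [k0.2 (by omega), k1.2 (by omega), k2.2 (by omega)] at h4
  exact absurd h4 (by decide)

def tri (i : Fin 8) : Finset (Fin 8 → ZMod 2) := fs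
  ([[4, 8, 12], [5, 10, 15], [6, 11, 13], [7, 9, 14], [64, 128, 192], [80, 160, 240],
    [96, 176, 208], [112, 144, 224]].getD i [])

theorem circ3 {n : ℕ} (C : Finset (Fin n → ZMod 2)) (h0 : 0 ∉ C) (h3 : C.card = 3)
    (hs : ∑ x ∈ C, x = 0) : Circ C := by
  refine ⟨h0, card_pos.1 (by omega), hs, fun D hD h1 h2 => eq_of_subset_of_card_le hD ?_⟩
  by_contra hh
  have := card_pos.2 h1
  obtain h | h : D.card = 1 ∨ D.card = 2 := by omega
  · obtain ⟨x, rfl⟩ := card_eq_one.1 h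
    rw [sum_singleton] at h2
    exact h0 (h2 ▸ hD (mem_singleton_self x))
  · obtain ⟨x, y, hxy, rfl⟩ := card_eq_two.1 h
    rw [sum_pair hxy] at h2
    exact hxy (add_right_cancel (h2.trans (two y).symm))

theorem upper : Cover MM 8 := by
  have t1 : ∀ i, 0 ∉ tri i ∧ (tri i).card = 3 ∧ ∑ x ∈ tri i, x = 0 := by decide +kernel
  exact ⟨tri, fun i => circ3 _ (t1 i).1 (t1 i).2.1 (t1 i).2.2, by decide +kernel⟩

def bl (i : Fin 3) : List ℕ :=
  [[4, 5, 6, 8, 64, 80, 96, 128], [7, 9, 10, 12, 112, 144, 160, 192],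
    [11, 13, 14, 15, 176, 208, 224, 240]].getD i []

theorem indep (l : List ℕ)
    (hl : ∀ a ∈ l, ∃ m < 256, ∀ b ∈ l, bt m ⬝ᵥ bt b = if a = b then 1 else 0) :
    LinearIndependent (ZMod 2) fun x : fs l => (x : Fin 8 → ZMod 2) := by
  rw [Fintype.linearIndependent_iff]
  intro g hg x
  have mem : ∀ y : fs l, ∃ b ∈ l, bt b = y := fun y => List.mem_map.1 (List.mem_toFinset.1 y.2)
  obtain ⟨a, ha, ea⟩ := mem x
  obtain ⟨m, -, hm⟩ := hl a ha
  have h := congrArg (bt m ⬝ᵥ ·) hg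
  simp only [dotProduct_sum, dotProduct_smul, dotProduct_zero] at h
  rw [sum_eq_single x] at h
  · rw [← ea, hm a ha] at h
    simpa using h
  · intro y _ hy
    obtain ⟨b, hb, eb⟩ := mem y
    rw [← eb, hm b hb, if_neg, smul_zero]
    rintro rfl
    exact hy (Subtype.ext (eb.symm.trans ea))
  · simp

theorem arb : Arb MM 3 := by
  refine ⟨fun i => fs (bl i), fun i => indep _ ?_, by decide +kernel⟩
  revert i
  decide +kernel

theorem result : ∃ (M : Finset (Fin 8 → ZMod 2)) (a c : ℕ), 0 ∉ M ∧ ∑ x ∈ M, x = 0 ∧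
    IsLeast {t | Arb M t} a ∧ IsLeast {t | Cover M t} c ∧ a < c := by
  have l1 := isLeast_csInf (s := {t | Arb MM t}) ⟨3, arb⟩
  have l2 := isLeast_csInf (s := {t | Cover MM t}) ⟨8, upper⟩
  refine ⟨MM, _, _, by decide +kernel, by decide +kernel, l1, l2, ?_⟩
  have h1 := l1.2 arb
  have h2 := lower _ l2.1
  omega

end Pool.Agent.Results.MP_a03d73_co.Odd
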